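import Pool.Agent.P.MP_e2f23e_nt.SD.Win

/-! The invariants kept from window to window. -/

namespace Pool.Agent.P.MP_e2f23e_nt.SD

open Finset Filter Topology Pool.Agent.P.MP_e2f23e_nt

/-- The signed area. -/
def Sg (T : ℕ → Bool) (n : ℕ) : ℤ := ∑ k ∈ Ioc 0 n, walk T k

/-- The total area. -/
def Ab (T : ℕ → Bool) (n : ℕ) : ℤ := ∑ k ∈ Ioc 0 n, |walk T k|

lemma Sg_congr {S T : ℕ → Bool} {n : ℕ} (h : ∀ j, j < n → T j = S j) : Sg T n = Sg S n :=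
  sum_congr rfl fun _ hk => walk_congr fun j hj => h j (hj.trans_le (mem_Ioc.1 hk).2)

lemma Ab_congr {S T : ℕ → Bool} {n : ℕ} (h : ∀ j, j < n → T j = S j) : Ab T n = Ab S n :=
  sum_congr rfl fun _ hk => by rw [walk_congr fun j hj => h j (hj.trans_le (mem_Ioc.1 hk).2)]

lemma Sg_add (T : ℕ → Bool) {n m : ℕ} (h : n ≤ m) :
    Sg T m = Sg T n + ∑ k ∈ Ioc n m, walk T k :=
  (sum_Ioc_consecutive _ (Nat.zero_le n) h).symm

lemma Ab_add (T : ℕ → Bool) {n m : ℕ} (h : n ≤ m) :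
    Ab T m = Ab T n + ∑ k ∈ Ioc n m, |walk T k| :=
  (sum_Ioc_consecutive _ (Nat.zero_le n) h).symm

lemma Ab_nonneg (T : ℕ → Bool) (n : ℕ) : 0 ≤ Ab T n := sum_nonneg fun _ _ => abs_nonneg _

/-- The weight of an interval is its length, up to `n / K ^ 6`. -/
def Reg (g : ℕ → ℝ) (K n : ℕ) : Prop :=
  ∀ a b : ℕ, n ≤ a → a ≤ b → b ≤ 2 * n → (K : ℝ) ^ 6 * |∑ k ∈ Icc a b, g k - (b - a)| ≤ n

lemma reg_ev {g : ℕ → ℝ} (hg : Tendsto (fun m : ℕ => (∑ k ∈ Ioc 0 m, g k) / m) atTop (𝓝 1))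
    (K : ℕ) : ∃ N, ∀ n, N ≤ n → K ^ 6 ≤ n ∧ Reg g K n := by
  have hK : (0 : ℝ) ≤ (K : ℝ) ^ 6 := by positivity
  obtain ⟨N, hN⟩ := Metric.tendsto_atTop.1 hg (1 / (8 * (K ^ 6 + 1))) (by positivity)
  have key : ∀ m : ℕ, N + 1 ≤ m → (K : ℝ) ^ 6 * |∑ k ∈ Ioc 0 m, g k - m| ≤ m / 8 := fun m hm => by
    have h1 := hN m (by omega)
    have h2 : (0 : ℝ) < m := by exact_mod_cast (by omega : 0 < m)
    rw [Real.dist_eq, div_sub_one h2.ne', abs_div, abs_of_pos h2,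
      div_lt_div_iff₀ h2 (by positivity)] at h1
    have := abs_nonneg (∑ k ∈ Ioc 0 m, g k - m)
    linarith
  refine ⟨N + 2 + 2 * K ^ 6, fun n hn => ⟨by omega, fun a b h1 h2 h3 => ?_⟩⟩
  obtain ⟨c, rfl⟩ : ∃ c, a = c + 1 := ⟨a - 1, by omega⟩
  have e1 := key b (by omega)
  have e2 := key c (by omega)
  have e3 : ∑ k ∈ Ioc 0 c, g k + ∑ k ∈ Ioc c b, g k = ∑ k ∈ Ioc 0 b, g k :=
    sum_Ioc_consecutive _ (Nat.zero_le c) (by omega)
  have e4 : ∑ k ∈ Icc (c + 1) b, g k - ((b : ℝ) - (c + 1 : ℕ)) =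
      (∑ k ∈ Ioc 0 b, g k - b) - (∑ k ∈ Ioc 0 c, g k - c) + 1 := by
    rw [Icc_add_one_left_eq_Ioc, ← e3]
    push_cast
    ring
  have e5 := (abs_add_le _ (1 : ℝ)).trans (add_le_add_left
    (abs_sub (∑ k ∈ Ioc 0 b, g k - b) (∑ k ∈ Ioc 0 c, g k - c)) _)
  rw [← e4, abs_one] at e5
  have e6 := mul_le_mul_of_nonneg_left e5 hK
  have e7 : (b : ℝ) ≤ 2 * n := by exact_mod_cast h3
  have e8 : (c : ℝ) ≤ 2 * n := by exact_mod_cast (by omega : c ≤ 2 * n)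
  have e9 : 2 * (K : ℝ) ^ 6 ≤ n := by exact_mod_cast (by omega : 2 * K ^ 6 ≤ n)
  linarith

lemma red {K W n : ℕ} {z : ℝ} (hK : 18 ≤ K) (h : (K : ℝ) ^ 6 * z ≤ n)
    (w : n ≤ 2 * (K ^ 4 * W)) : (K : ℝ) ^ 2 * z ≤ 2 * W := by
  have h1 : (n : ℝ) ≤ 2 * (K ^ 4 * W) := by exact_mod_cast w
  have h2 : (0 : ℝ) < K := by exact_mod_cast (by omega : 0 < K)
  refine le_of_mul_le_mul_left ?_ (pow_pos h2 4)
  linarith

lemma wfacts {K n : ℕ} (hK : 18 ≤ K) (h : K ^ 6 ≤ n) :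
    1 ≤ n / K ^ 4 ∧ K ^ 4 * (n / K ^ 4) ≤ n ∧ n ≤ 2 * (K ^ 4 * (n / K ^ 4)) := by
  have h0 : 0 < K ^ 4 := by positivity
  have h1 : K ^ 4 ≤ K ^ 6 := Nat.pow_le_pow_right (by omega) (by omega)
  have h2 : 1 ≤ n / K ^ 4 := Nat.div_pos (h1.trans h) h0
  have h3 := Nat.lt_mul_div_succ n h0
  have h4 : K ^ 4 ≤ K ^ 4 * (n / K ^ 4) := Nat.le_mul_of_pos_right _ h2
  rw [mul_add, mul_one] at h3
  exact ⟨h2, Nat.mul_div_le _ _, by omega⟩

lemma gap_of {g : ℕ → ℝ} {S : ℕ → Bool} (gS : ∀ k, g k ≠ 0 → S k = true) {K n W a : ℕ}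
    (hK : 18 ≤ K) (hr : Reg g K n) (hW : 1 ≤ W) (w : n ≤ 2 * (K ^ 4 * W)) (h1 : n ≤ a)
    (h2 : a + W ≤ 2 * n) : ∃ q, a ≤ q ∧ q ≤ a + W ∧ S q = true := by
  by_contra hn
  push Not at hn
  have e1 := red hK (hr a (a + W) h1 (by omega) h2) w
  rw [sum_eq_zero fun k hk => by
    by_contra h
    exact hn k (mem_Icc.1 hk).1 (mem_Icc.1 hk).2 (gS k h)] at e1
  have e2 : (18 : ℝ) ≤ K := by exact_mod_cast hK
  have e3 : (1 : ℝ) ≤ W := by exact_mod_cast hW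
  push_cast at e1
  rw [add_sub_cancel_left, zero_sub, abs_neg, abs_of_nonneg (by linarith)] at e1
  have e4 : (18 : ℝ) ^ 2 ≤ (K : ℝ) ^ 2 := pow_le_pow_left₀ (by norm_num) e2 2
  have e5 := mul_le_mul_of_nonneg_right e4 (by linarith : (0 : ℝ) ≤ W)
  linarith

/-- The state at the start of a window. -/
structure St where
  /-- the current set -/
  T : ℕ → Bool
  /-- the time -/
  n : ℕ
  /-- the scale -/
  K : ℕ
  /-- the places changed so far -/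
  D : Finset ℕ

/-- The invariants. -/
def Inv (S : ℕ → Bool) (g : ℕ → ℝ) (N : ℕ → ℕ) (C : ℕ) (x : St) : Prop :=
  18 ≤ x.K ∧ N x.K ≤ x.n ∧ S x.n = true ∧ (∀ k, x.n ≤ k → x.T k = S k) ∧
    (∀ k, x.T k = true → S k = true) ∧ (∀ k, k ∉ x.D → x.T k = S k) ∧
    (x.K : ℤ) ^ 3 * |walk x.T x.n| ≤ 4 * x.n ∧ (x.K : ℤ) ^ 4 * |Sg x.T x.n| ≤ C * x.n ^ 2 ∧
    (x.n : ℤ) ^ 2 ≤ 24 * x.K ^ 3 * Ab x.T x.n + C ∧ (x.K : ℝ) * ∑ k ∈ x.D, g k ≤ C * x.n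

lemma sum_union_le' {g : ℕ → ℝ} (g0 : ∀ k, 0 ≤ g k) (s t : Finset ℕ) :
    ∑ k ∈ s ∪ t, g k ≤ ∑ k ∈ s, g k + ∑ k ∈ t, g k := by
  rw [← sum_union_inter]
  exact le_add_of_nonneg_right (sum_nonneg fun k _ => g0 k)

lemma next {S : ℕ → Bool} {g : ℕ → ℝ} {N : ℕ → ℕ} {C : ℕ}
    (hN : ∀ K n, N K ≤ n → K ^ 6 ≤ n ∧ Reg g K n) (g0 : ∀ k, 0 ≤ g k)
    (gS : ∀ k, g k ≠ 0 → S k = true) (hC : 40 ≤ C) {x : St} (hx : Inv S g N C x) :
    ∃ y : St, Inv S g N C y ∧ x.n < y.n ∧ y.n ≤ 2 * x.n ∧ (∀ k, k < x.n → y.T k = x.T k) ∧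
      (y.K = if N (x.K + 1) ≤ y.n then x.K + 1 else x.K) ∧
      ∀ m, x.n ≤ m → m ≤ y.n → (x.K : ℤ) ^ 4 * |Sg y.T m| ≤ (C + 40) * x.n ^ 2 := by
  obtain ⟨T, n, K, D⟩ := x
  obtain ⟨i1, i2, i3, i4, i5, i6, i7, i8, i9, i10⟩ := hx
  dsimp only at *
  obtain ⟨r1, r2⟩ := hN K n i2
  obtain ⟨w0, w1, w2⟩ := wfacts i1 r1
  generalize n / K ^ 4 = W at w0 w1 w2
  have hK0 : 0 < K := by omega
  have hKz : (0 : ℤ) < K := by exact_mod_cast hK0
  have hn1 : 1 ≤ n := le_trans (Nat.pow_pos hK0) r1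
  have k1 : K ^ 4 * W = K * (K ^ 3 * W) := by ring
  have k2 : 18 * (K ^ 3 * W) ≤ K ^ 4 * W := k1 ▸ Nat.mul_le_mul_right _ i1
  have k3 : 0 < K ^ 3 * W := by positivity
  have w1z : (K : ℤ) ^ 4 * W ≤ n := by exact_mod_cast w1
  have w2z : (n : ℤ) ≤ 2 * (K ^ 4 * W) := by exact_mod_cast w2
  obtain ⟨U, p, q, E, a1, a2, a3, a4, a5, a6, a7, a8, a9, a10, a11, a12, a13, a14⟩ :=
    win (S := T) (n := n) (W := W) (K := K) hn1 (by rw [i4 n le_rfl, i3]) w0 i1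
      (σ := if 0 ≤ Sg T n then -1 else 1) (by split_ifs <;> simp)
      (le_of_mul_le_mul_left (by linarith) (pow_pos hKz 3)) fun a h1 h2 => by
        obtain ⟨q, c1, c2, c3⟩ := gap_of gS i1 r2 w0 w2 h1 (by omega)
        exact ⟨q, c1, c2, by rw [i4 q (by omega), c3]⟩
  obtain ⟨L, hL⟩ : ∃ L, L = if N (K + 1) ≤ q then K + 1 else K := ⟨_, rfl⟩
  have l1 : K ≤ L ∧ L ≤ K + 1 ∧ N L ≤ q := by
    rw [hL]
    split_ifs <;> omega
  obtain ⟨l1, l2, l3⟩ := l1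
  have hnq : n ≤ q := by omega
  have mono : n * L ^ 2 ≤ q * K ^ 2 := by
    have c1 : n * L ^ 2 ≤ n * (K + 1) ^ 2 := Nat.mul_le_mul_left _ (Nat.pow_le_pow_left l2 2)
    have c2 : (n + 8 * (K ^ 3 * W)) * K ^ 2 ≤ q * K ^ 2 := Nat.mul_le_mul_right _ a3
    have c3 : n * K ≤ 2 * (K ^ 4 * W) * K := Nat.mul_le_mul_right _ w2
    have c4 : n ≤ n * K := Nat.le_mul_of_pos_right _ hK0
    linarith
  have monoz : (n : ℤ) * L ^ 2 ≤ q * K ^ 2 := by exact_mod_cast mono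
  have sg0 : Sg U n = Sg T n := Sg_congr fun j hj => a6 j (Or.inl hj)
  have ab0 : Ab U n = Ab T n := Ab_congr fun j hj => a6 j (Or.inl hj)
  have big : (K : ℤ) ^ 4 * (40 * (K ^ 4 * W ^ 2)) ≤ 40 * n ^ 2 := by
    have := pow_le_pow_left₀ (by positivity) w1z 2
    linarith
  have part : ∀ m, n ≤ m → m ≤ q → |∑ k ∈ Ioc n m, walk U k| ≤ 40 * (K ^ 4 * W ^ 2) :=
    fun m _ h2 => (abs_sum_le_sum_abs _ _).trans ((sum_le_sum_of_subset_of_nonneg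
      (Ioc_subset_Ioc_right h2) fun _ _ _ => abs_nonneg _).trans a12)
  have hCz : (40 : ℤ) ≤ C := by exact_mod_cast hC
  have hK4 : (0 : ℤ) < (K : ℤ) ^ 4 := pow_pos hKz 4
  refine ⟨⟨U, q, L, D ∪ (Icc n p ∪ E)⟩, ⟨i1.trans l1, l3, by rw [← i4 q hnq, a5],
    fun k hk => ?_, fun k hk => i5 k (a7 k hk), fun k hk => ?_, ?_, ?_, ?_, ?_⟩, by dsimp only; omega,
    by dsimp only; omega, fun k hk => a6 k (Or.inl hk), hL, fun m h1 h2 => ?_⟩ <;> dsimp only at *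
  · rw [a6 k (Or.inr hk), i4 k (hnq.trans hk)]
  · rw [mem_union, not_or] at hk
    rw [a8 k hk.2, i6 k hk.1]
  · have c1 : L ^ 3 * (2 * (K * W)) ≤ 4 * q := by
      refine Nat.le_of_mul_le_mul_left ?_ (Nat.pow_pos hK0 : 0 < K ^ 3)
      calc K ^ 3 * (L ^ 3 * (2 * (K * W))) = 2 * L ^ 3 * (K ^ 4 * W) := by ring
        _ ≤ 2 * L ^ 3 * n := Nat.mul_le_mul_left _ w1
        _ = 2 * L * (n * L ^ 2) := by ring
        _ ≤ 2 * (2 * K) * (q * K ^ 2) := Nat.mul_le_mul (by omega) mono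
        _ = K ^ 3 * (4 * q) := by ring
    have c2 : (L : ℤ) ^ 3 * (2 * (K * W)) ≤ 4 * q := by exact_mod_cast c1
    exact (mul_le_mul_of_nonneg_left a11 (by positivity)).trans c2
  · have c1 : (K : ℤ) ^ 4 * |Sg U q| ≤ C * n ^ 2 := by
      have d1 := part q hnq le_rfl
      have d2 : |Sg U q| ≤ |Sg T n| ∨ |Sg U q| ≤ 40 * (K ^ 4 * W ^ 2) := by
        rw [Sg_add U hnq, sg0]
        generalize ∑ k ∈ Ioc n q, walk U k = s at a13 d1
        generalize (40 : ℤ) * (K ^ 4 * W ^ 2) = B at d1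
        generalize Sg T n = t at a13
        rcases abs_cases s with h | h <;> rcases abs_cases t with h' | h' <;>
          rcases abs_cases (t + s) with h'' | h'' <;> split_ifs at a13 <;> omega
      rcases d2 with d2 | d2
      · exact (mul_le_mul_of_nonneg_left d2 hK4.le).trans i8
      · exact (mul_le_mul_of_nonneg_left d2 hK4.le).trans
          (big.trans (mul_le_mul_of_nonneg_right hCz (by positivity)))
    refine le_of_mul_le_mul_left ?_ hK4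
    have c2 := mul_le_mul_of_nonneg_left c1 (by positivity : (0 : ℤ) ≤ (L : ℤ) ^ 4)
    have c3 := mul_le_mul_of_nonneg_left (pow_le_pow_left₀ (by positivity) monoz 2)
      (by positivity : (0 : ℤ) ≤ C)
    linarith only [c2, c3]
  · have c1 : (K : ℤ) ^ 3 ≤ (L : ℤ) ^ 3 :=
      pow_le_pow_left₀ hKz.le (by exact_mod_cast l1) 3
    have c2 := mul_le_mul_of_nonneg_right c1 (Ab_nonneg U q)
    have c3 : (0 : ℤ) ≤ q - n := by omega
    have c4 : (q : ℤ) + n ≤ 6 * (K ^ 4 * W) := by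
      have : (q : ℤ) ≤ 2 * n := by omega
      linarith
    have c5 := mul_le_mul_of_nonneg_left c4 c3
    have c6 := mul_le_mul_of_nonneg_left a14 (pow_pos hKz 3).le
    have c7 : (K : ℤ) ^ 3 * Ab U q = K ^ 3 * Ab T n + K ^ 3 * ∑ k ∈ Ioc n q, |walk U k| := by
      rw [Ab_add U hnq, ab0, mul_add]
    linarith
  · have hKr : (18 : ℝ) ≤ K := by exact_mod_cast i1
    have hWr : (1 : ℝ) ≤ W := by exact_mod_cast w0
    have c0 : (1 : ℝ) ≤ (K : ℝ) ^ 2 := one_le_pow₀ (by linarith)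
    have kw : (W : ℝ) ≤ K * W := le_mul_of_one_le_left (by linarith) (by linarith)
    have c1 : ∑ k ∈ Icc n p, g k ≤ 12 * (K * W) := by
      have k4 : K * W ≤ K ^ 3 * W := Nat.mul_le_mul_right _ (Nat.le_self_pow (by omega) K)
      have d1 := red i1 (r2 n p le_rfl a1 (by omega)) w2
      have d2 := le_mul_of_one_le_left (abs_nonneg (∑ k ∈ Icc n p, g k - ((p : ℝ) - n))) c0
      have d3 := le_abs_self (∑ k ∈ Icc n p, g k - ((p : ℝ) - n))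
      have d4 : (p : ℝ) ≤ n + 10 * (K * W) := by exact_mod_cast a2
      linarith
    have c2 : ∑ k ∈ E, g k ≤ 16 * (K * W) := by
      have d1 : ∑ k ∈ E, (K : ℝ) ^ 2 * g k ≤ E.card • (2 * (W : ℝ)) :=
        sum_le_card_nsmul _ _ _ fun k hk => by
          have := red i1 (r2 k k (a10 k hk).1 le_rfl (by have := (a10 k hk).2; omega)) w2
          simpa [abs_of_nonneg (g0 k)] using this
      have d2 : (E.card : ℝ) ≤ 8 * K ^ 3 := by exact_mod_cast a9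
      have d3 := mul_le_mul_of_nonneg_right d2 (by linarith : (0 : ℝ) ≤ 2 * W)
      rw [← mul_sum, nsmul_eq_mul] at d1
      refine le_of_mul_le_mul_left ?_ (by linarith : (0 : ℝ) < (K : ℝ) ^ 2)
      linarith
    have c3 : ∑ k ∈ D ∪ (Icc n p ∪ E), g k ≤ ∑ k ∈ D, g k + 28 * (K * W) := by
      linarith [sum_union_le' g0 D (Icc n p ∪ E), sum_union_le' g0 (Icc n p) E]
    have c4 : (L : ℝ) ≤ K + 1 := by exact_mod_cast l2
    have c5 := mul_le_mul c4 c3 (sum_nonneg fun k _ => g0 k) (by linarith)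
    have c6 : (n : ℝ) + 8 * (K ^ 3 * W) ≤ q := by exact_mod_cast a3
    have c7 : (n : ℝ) ≤ 2 * (K ^ 4 * W) := by exact_mod_cast w2
    have c8 : (40 : ℝ) ≤ C := by exact_mod_cast hC
    have c9 : 18 * ((K : ℝ) ^ 3 * W) ≤ K ^ 4 * W := by exact_mod_cast k2
    have e0 : (0 : ℝ) ≤ K ^ 2 * W := by positivity
    have e0' : (0 : ℝ) ≤ K ^ 4 * W := by positivity
    refine le_of_mul_le_mul_left ?_ (by linarith : (0 : ℝ) < K)
    have e1 := mul_le_mul_of_nonneg_left c5 (by linarith : (0 : ℝ) ≤ K)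
    have e2 := mul_le_mul_of_nonneg_left i10 (by linarith : (0 : ℝ) ≤ K + 1)
    have e3 := mul_le_mul_of_nonneg_left c6 (by positivity : (0 : ℝ) ≤ K * C)
    have e4 := mul_le_mul_of_nonneg_left c7 (by linarith : (0 : ℝ) ≤ C)
    have e5 := mul_le_mul_of_nonneg_right c8 e0'
    have e6 := mul_le_mul_of_nonneg_right hKr e0
    linarith
  · have d1 := part m h1 h2
    have d2 := abs_add_le (Sg T n) (∑ k ∈ Ioc n m, walk U k)
    rw [Sg_add U h1, sg0]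
    have d3 := mul_le_mul_of_nonneg_left (d2.trans (add_le_add_right d1 _)) hK4.le
    linarith

end Pool.Agent.P.MP_e2f23e_nt.SD
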