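import Pool.Agent.P.MP_e2f23e_nt.SD.Bal
import Pool.Agent.P.MP_e86632_nt.PNT

/-! The limit of the windows, and the case of the primes. -/

namespace Pool.Agent.P.MP_e2f23e_nt.SD

open Finset Filter Topology Pool.Agent.P.MP_e2f23e_nt

lemma init {S : ℕ → Bool} {g : ℕ → ℝ} {N : ℕ → ℕ}
    (hN : ∀ K n, N K ≤ n → K ^ 6 ≤ n ∧ Reg g K n) (gS : ∀ k, g k ≠ 0 → S k = true) :
    ∃ C, 40 ≤ C ∧ ∃ x : St, Inv S g N C x := by
  have gap : ∀ n, N 18 ≤ n → ∃ q, n ≤ q ∧ q ≤ n + n / 18 ^ 4 ∧ S q = true := fun n hn => by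
    obtain ⟨r1, r2⟩ := hN 18 n hn
    obtain ⟨w0, w1, w2⟩ := wfacts le_rfl r1
    exact gap_of gS le_rfl r2 w0 w2 le_rfl (by omega)
  obtain ⟨p, p1, -, p3⟩ := gap _ le_rfl
  have hp : 1 ≤ p := le_trans (by norm_num) (hN 18 p p1).1
  obtain ⟨T, q, a1, a2, a3, a4, a5, a6⟩ := reach (W := (p + (walk S p - 0).natAbs) / 18 ^ 4) hp p3 0
    (gap _ (by omega))
  have b1 := abs_le.1 (abs_walk_le S hp)
  obtain ⟨A, hA⟩ : ∃ A : ℕ, ((18 : ℕ) : ℤ) ^ 4 * |Sg T q| ≤ A := ⟨_, Int.self_le_toNat _⟩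
  obtain ⟨B, hB⟩ := exists_nat_ge (((18 : ℕ) : ℝ) * ∑ k ∈ Icc p q, g k)
  have hq : 1 ≤ q := hp.trans a1
  refine ⟨40 + A + B + q ^ 2, by omega, ⟨T, q, 18, Icc p q⟩, le_rfl, p1.trans a1, a3,
    fun k hk => a4 k (Or.inr hk), a5, fun k hk => a4 k ?_, ?_, hA.trans ?_, ?_, hB.trans ?_⟩ <;>
    dsimp only at *
  · rw [mem_Icc] at hk
    omega
  · rw [sub_zero (walk T q)] at a6
    omega
  · exact_mod_cast (show A ≤ 40 + A + B + q ^ 2 by omega).trans
      (Nat.le_mul_of_pos_right _ (by positivity : 0 < q ^ 2))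
  · have := mul_nonneg (by positivity : (0 : ℤ) ≤ 24 * ((18 : ℕ) : ℤ) ^ 3) (Ab_nonneg T q)
    have h2 : (q : ℤ) ^ 2 ≤ (40 + A + B + q ^ 2 : ℕ) := by exact_mod_cast (by omega)
    linarith
  · exact_mod_cast (show B ≤ 40 + A + B + q ^ 2 by omega).trans (Nat.le_mul_of_pos_right _ hq)

theorem limit {S : ℕ → Bool} {g : ℕ → ℝ} (g0 : ∀ k, 0 ≤ g k) (gS : ∀ k, g k ≠ 0 → S k = true)
    (hg : Tendsto (fun m : ℕ => (∑ k ∈ Ioc 0 m, g k) / m) atTop (𝓝 1)) :
    ∃ T : ℕ → Bool, (∀ k, T k = true → S k = true) ∧ ∀ M : ℕ, ∀ᶠ m in atTop,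
      M * |Sg T m| < Ab T m ∧
        M * ∑ k ∈ (Ioc 0 m).filter (fun k => S k = true ∧ T k = false), g k ≤ m := by
  choose N hN using reg_ev hg
  obtain ⟨C, hC, x0, hx0⟩ := init hN gS
  choose nx h0 h1 h2 h3 h4 h5 using fun x : {x : St // Inv S g N C x} => next hN g0 gS hC x.2
  let f : ℕ → {x : St // Inv S g N C x} := fun j =>
    Nat.rec ⟨x0, hx0⟩ (fun _ x => ⟨nx x, h0 x⟩) j
  have fs : ∀ j, (f (j + 1)).1 = nx (f j) := fun _ => rfl
  have fmono : StrictMono fun j => (f j).1.n := strictMono_nat_of_lt_succ fun j => h1 (f j)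
  have fle : ∀ j, j ≤ (f j).1.n := fun j => fmono.id_le j
  have fag : ∀ i j k, k < (f j).1.n → (f (j + i)).1.T k = (f j).1.T k := fun i j k hk => by
    induction i with
    | zero => rfl
    | succ i ih =>
      rw [← add_assoc, fs, h3 _ k (hk.trans_le (fmono.monotone (Nat.le_add_right j i))), ih]
  have lim : ∀ j k, k < (f j).1.n → (f (k + 1)).1.T k = (f j).1.T k := fun j k hk => by
    rw [← fag (k + 1) j k hk, add_comm j, fag j (k + 1) k (fle (k + 1))]
  have kmono : Monotone fun j => (f j).1.K := monotone_nat_of_le_succ fun j => by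
    rw [fs, h4]
    split_ifs <;> omega
  have kbig : ∀ K, ∃ J, K ≤ (f J).1.K := fun K => by
    induction K with
    | zero => exact ⟨0, Nat.zero_le _⟩
    | succ K ih =>
      obtain ⟨J, hJ⟩ := ih
      have e1 : K ≤ (f (J + N (K + 1))).1.K := hJ.trans (kmono (Nat.le_add_right _ _))
      rcases e1.lt_or_eq with h | h
      · exact ⟨_, h⟩
      · refine ⟨J + N (K + 1) + 1, ?_⟩
        have e2 := fle (J + N (K + 1) + 1)
        rw [fs] at e2 ⊢
        rw [h4, ← h, if_pos (by omega)]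
  refine ⟨fun k => (f (k + 1)).1.T k, fun k hk => (f (k + 1)).2.2.2.2.2.1 k hk, fun M => ?_⟩
  obtain ⟨J, hJ⟩ := kbig (48 * (C + 40) * M + 1)
  filter_upwards [eventually_ge_atTop ((f (J + 2 * C)).1.n)] with m hm
  have ex : ∃ j, m < (f j).1.n := ⟨m + 1, fle _⟩
  have e1 := Nat.find_spec ex
  have e2 := fun j => Nat.find_min ex (m := j)
  generalize Nat.find ex = j at e1 e2
  have e3 : J + 2 * C < j := fmono.lt_iff_lt.1 (hm.trans_lt e1)
  obtain ⟨j, rfl⟩ : ∃ i, j = i + 1 := ⟨j - 1, by omega⟩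
  have e4 : (f j).1.n ≤ m := not_lt.1 (e2 j (by omega))
  have e5 : 48 * (C + 40) * M + 1 ≤ (f j).1.K := hJ.trans (kmono (by omega))
  have e6 := h5 (f j) m e4 e1.le
  obtain ⟨-, -, -, -, -, -, -, -, i9, -⟩ := (f j).2
  obtain ⟨-, -, -, -, -, i6, -, -, -, i10⟩ := (f (j + 1)).2
  constructor
  · have c1 : Sg (fun k => (f (k + 1)).1.T k) m = Sg (nx (f j)).T m :=
      Sg_congr fun k hk => lim (j + 1) k (hk.trans e1)
    have c2 : Ab (f j).1.T (f j).1.n ≤ Ab (fun k => (f (k + 1)).1.T k) m := by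
      rw [Ab_add _ e4, Ab_congr (S := (f j).1.T) fun k hk => lim j k hk]
      exact le_add_of_nonneg_right (sum_nonneg fun _ _ => abs_nonneg _)
    have c3 : 2 * C ≤ (f j).1.n := le_trans (by omega) (fle j)
    rw [c1]
    refine lt_of_lt_of_le ?_ c2
    generalize Ab (f j).1.T (f j).1.n = A at *
    generalize |Sg (nx (f j)).T m| = I at *
    generalize (f j).1.K = K at *
    generalize (f j).1.n = n at *
    have d0 : (0 : ℤ) < K := by exact_mod_cast (by omega : 0 < K)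
    have d1 : 48 * ((C : ℤ) + 40) * M + 1 ≤ K := by exact_mod_cast e5
    have d2 : 2 * (C : ℤ) ≤ (n : ℤ) ^ 2 := by
      exact_mod_cast c3.trans (Nat.le_self_pow (by omega) n)
    have d3 : (40 : ℤ) ≤ C := by exact_mod_cast hC
    have d4 := mul_le_mul_of_nonneg_left e6 (Int.natCast_nonneg M)
    have d5 := mul_le_mul_of_nonneg_right d1 (sq_nonneg (n : ℤ))
    have d6 := mul_le_mul_of_nonneg_left (show (n : ℤ) ^ 2 ≤ 48 * K ^ 3 * A by linarith) d0.le
    refine lt_of_mul_lt_mul_left ?_ (pow_pos d0 4).le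
    linarith
  · have c1 : ∑ k ∈ (Ioc 0 m).filter (fun k => S k = true ∧ (f (k + 1)).1.T k = false), g k ≤
        ∑ k ∈ (f (j + 1)).1.D, g k :=
      sum_le_sum_of_subset_of_nonneg (fun k hk => by
        rw [mem_filter, mem_Ioc] at hk
        by_contra hD
        have := hk.2.2
        rw [lim (j + 1) k (hk.1.2.trans_lt e1), i6 k hD, hk.2.1] at this
        exact absurd this (by simp)) fun k _ _ => g0 k
    have c2 : (f (j + 1)).1.n ≤ 2 * m := (h2 (f j)).trans (by omega)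
    have c3 : 48 * (C + 40) * M + 1 ≤ (f (j + 1)).1.K := e5.trans (kmono (Nat.le_succ j))
    have c4 : 0 ≤ ∑ k ∈ (f (j + 1)).1.D, g k := sum_nonneg fun k _ => g0 k
    refine (mul_le_mul_of_nonneg_left c1 (Nat.cast_nonneg M)).trans ?_
    generalize ∑ k ∈ (f (j + 1)).1.D, g k = X at *
    generalize (f (j + 1)).1.K = K at *
    generalize (f (j + 1)).1.n = n at *
    have d1 : 48 * ((C : ℝ) + 40) * M + 1 ≤ K := by exact_mod_cast c3
    have d2 : (n : ℝ) ≤ 2 * m := by exact_mod_cast c2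
    have d3 : (40 : ℝ) ≤ C := by exact_mod_cast hC
    have d4 := mul_le_mul_of_nonneg_right d1 c4
    have d5 := mul_le_mul_of_nonneg_left d2 (by linarith : (0 : ℝ) ≤ C)
    have d6 : 0 ≤ (M : ℝ) * X := by positivity
    have d7 : 0 ≤ (C : ℝ) * m := by positivity
    refine le_of_mul_le_mul_left ?_ (by linarith : (0 : ℝ) < C)
    linarith

lemma area_eq (T : ℕ → Bool) (n : ℕ) :
    Apos T n + Aneg T n = Ab T n ∧ Apos T n - Aneg T n = Sg T n := by
  rw [Apos, Aneg, Ab, Sg, ← sum_add_distrib, ← sum_sub_distrib, ← Icc_add_one_left_eq_Ioc, zero_add]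
  constructor <;> refine sum_congr rfl fun k _ => ?_
  · rcases abs_cases (walk T k) with h | h <;> omega
  · omega

lemma ratio {T : ℕ → Bool} (h : ∀ M : ℕ, ∀ᶠ m in atTop, M * |Sg T m| < Ab T m) :
    Tendsto (fun n => (Apos T n : ℝ) / Aneg T n) atTop (𝓝 1) := by
  rw [Metric.tendsto_nhds]
  intro ε hε
  obtain ⟨M, hM⟩ := exists_nat_ge (2 / ε)
  filter_upwards [h (M + 1)] with m hm
  obtain ⟨e1, e2⟩ := area_eq T m
  have c0 : ((M : ℝ) + 1) * |(Sg T m : ℝ)| < Ab T m := by exact_mod_cast hm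
  have c1 : (Apos T m : ℝ) + Aneg T m = Ab T m := by exact_mod_cast e1
  have c2 : (Apos T m : ℝ) - Aneg T m = Sg T m := by exact_mod_cast e2
  have c3 := le_abs_self (Sg T m : ℝ)
  have c4 := abs_nonneg (Sg T m : ℝ)
  have c5 : 0 ≤ (M : ℝ) * |(Sg T m : ℝ)| := by positivity
  have c6 : (0 : ℝ) < Aneg T m := by linarith
  rw [div_le_iff₀ hε] at hM
  rw [Real.dist_eq, div_sub_one c6.ne', abs_div, abs_of_pos c6, div_lt_iff₀ c6, c2]
  have c7 := mul_le_mul_of_nonneg_right hM c4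
  have c8 := mul_lt_mul_of_pos_left
    (show (M : ℝ) * |(Sg T m : ℝ)| < 2 * Aneg T m by linarith) hε
  linarith

lemma zeros {T : ℕ → Bool} (h : ∀ᶠ m in atTop, 2 * |Sg T m| < Ab T m) :
    ∃ᶠ k in atTop, walk T k = 0 := by
  have key : ∀ σ : ℤ, σ = 1 ∨ σ = -1 → ∀ a, ∃ k, a < k ∧ σ * walk T k ≤ 0 := fun σ hσ a => by
    by_contra hn
    push Not at hn
    obtain ⟨m, h1, h2⟩ := (h.and (eventually_ge_atTop (a + (4 * Ab T a).toNat))).exists
    have e1 := Sg_add T (show a ≤ m by omega)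
    have e2 := Ab_add T (show a ≤ m by omega)
    have e3 : ∑ k ∈ Ioc a m, |walk T k| = σ * ∑ k ∈ Ioc a m, walk T k := by
      rw [mul_sum]
      refine sum_congr rfl fun k hk => ?_
      have := hn k (mem_Ioc.1 hk).1
      rcases abs_cases (walk T k) with h | h <;> rcases hσ with rfl | rfl <;> omega
    have e4 : ((m : ℤ) - a) * 1 ≤ ∑ k ∈ Ioc a m, |walk T k| :=
      mul_le_sum (by omega) fun k hk _ => by
        have := hn k hk
        rcases abs_cases (walk T k) with h | h <;> rcases hσ with rfl | rfl <;> omega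
    have e5 : |Sg T a| ≤ Ab T a := abs_sum_le_sum_abs _ _
    have e6 := abs_le.1 e5
    rcases abs_cases (Sg T m) with h | h <;> rcases hσ with rfl | rfl <;> omega
  refine frequently_atTop.2 fun a => ?_
  obtain ⟨k, a1, a2⟩ := key (-1) (Or.inr rfl) a
  obtain ⟨l, b1, b2⟩ := key 1 (Or.inl rfl) k
  by_cases h1 : walk T k = 0
  · exact ⟨k, a1.le, h1⟩
  by_cases h2 : walk T l = 0
  · exact ⟨l, by omega, h2⟩
  obtain ⟨d, rfl⟩ := Nat.exists_eq_add_of_le b1.le
  obtain ⟨r, c1, c2⟩ := exists_zero T (a := k) (by omega) (by omega) d (by omega)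
  exact ⟨r, by omega, c2⟩

lemma pnt_theta : Tendsto (fun N : ℕ => Chebyshev.theta N / (N : ℝ)) atTop (𝓝 1) := by
  have hψ : Tendsto (fun N : ℕ => Chebyshev.psi N / (N : ℝ)) atTop (𝓝 1) := by
    have h := Pool.Agent.P.MP_e86632_nt.pnt_ap 1 (1 : ZMod 1) isUnit_one
    simp only [Nat.totient_one, Nat.cast_one, div_one] at h
    refine h.congr fun N => ?_
    rw [Chebyshev.psi_eq_sum_Icc, Nat.floor_natCast, Nat.range_succ_eq_Icc_zero]
    congr 1
    refine Finset.sum_congr rfl fun n _ => ?_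
    rw [ArithmeticFunction.vonMangoldt.residueClass, Set.indicator_of_mem]
    exact Subsingleton.elim _ _
  have h0 : (fun X : ℝ => Real.sqrt X) =o[atTop] fun X : ℝ => X := by
    refine (Asymptotics.isLittleO_iff_tendsto' ?_).2 ?_
    · filter_upwards with X hX
      simp [hX]
    · simp only [Real.sqrt_div_self', one_div]
      exact Real.tendsto_sqrt_atTop.inv_tendsto_atTop
  have h1 := (Chebyshev.isBigO_psi_sub_theta_sqrt.trans_isLittleO h0).tendsto_div_nhds_zero.comp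
    tendsto_natCast_atTop_atTop
  have h := hψ.sub h1
  rw [sub_zero] at h
  refine h.congr fun X => ?_
  simp only [Function.comp, Pi.sub_apply]
  ring

lemma card_log (R : Finset ℕ) (m : ℕ) (h : ∀ k ∈ R, 1 ≤ k) :
    R.card * Real.log m ≤ 2 * ∑ k ∈ R, Real.log k + √m * Real.log m := by
  have l0 := Real.log_natCast_nonneg m
  have e1 : ∑ _k ∈ R, Real.log m ≤
      ∑ k ∈ R, (2 * Real.log k + if k ≤ m.sqrt then Real.log m else 0) :=
    sum_le_sum fun k hk => by
      have := Real.log_natCast_nonneg k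
      split_ifs with h1
      · linarith
      · have h2 : m ≤ k ^ 2 := (Nat.sqrt_lt'.1 (not_le.1 h1)).le
        rcases Nat.eq_zero_or_pos m with rfl | h3
        · simpa using this
        · have := Real.log_le_log (by exact_mod_cast h3) (show (m : ℝ) ≤ k ^ 2 by exact_mod_cast h2)
          simpa using this
  rw [sum_const, nsmul_eq_mul, sum_add_distrib, ← mul_sum, ← sum_filter, sum_const,
    nsmul_eq_mul] at e1
  have e2 : (R.filter fun k => k ≤ m.sqrt).card ≤ m.sqrt := by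
    simpa using card_le_card (show (R.filter fun k => k ≤ m.sqrt) ⊆ Icc 1 m.sqrt from
      fun k hk => mem_Icc.2 ⟨h k (mem_filter.1 hk).1, (mem_filter.1 hk).2⟩)
  have e3 : ((R.filter fun k => k ≤ m.sqrt).card : ℝ) ≤ √m :=
    le_trans (by exact_mod_cast e2) Real.nat_sqrt_le_real_sqrt
  linarith [mul_le_mul_of_nonneg_right e3 l0]

theorem balanced : ∃ T : ℕ → Bool, (∀ k, T k = true → k.Prime) ∧
    Tendsto (fun x => (cnt T x : ℝ) / Nat.primeCounting x) atTop (𝓝 1) ∧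
    (∃ᶠ k in atTop, walk T k = 0) ∧
    Tendsto (fun n => (Apos T n : ℝ) / Aneg T n) atTop (𝓝 1) := by
  obtain ⟨T, h1, h2⟩ := limit (S := fun k => decide k.Prime)
    (g := fun k => if k.Prime then Real.log k else 0)
    (fun k => by split_ifs; exacts [Real.log_natCast_nonneg k, le_rfl])
    (fun k hk => by simpa using fun h => hk (if_neg h))
    (pnt_theta.congr fun m => by rw [Chebyshev.theta, Nat.floor_natCast, sum_filter])
  have h3 : ∀ k, T k = true → k.Prime := fun k hk => by simpa using h1 k hk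
  refine ⟨T, h3, ?_, zeros ((h2 2).mono fun m h => h.1), ratio fun M => (h2 M).mono fun m h => h.1⟩
  rw [Metric.tendsto_nhds]
  intro ε hε
  obtain ⟨M, hM⟩ := exists_nat_ge (16 / ε)
  rw [div_le_iff₀ hε] at hM
  have hl := (tendsto_natCast_atTop_atTop (R := ℝ)).eventually
    ((isLittleO_log_rpow_atTop (by norm_num : (0 : ℝ) < 1 / 2)).bound (by positivity : 0 < ε / 8))
  filter_upwards [h2 M, hl, pnt_theta.eventually (lt_mem_nhds (by norm_num : (1 / 2 : ℝ) < 1)),
    eventually_ge_atTop 2] with m a1 a2 a3 a4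
  have m0 : (2 : ℝ) ≤ m := by exact_mod_cast a4
  have l0 : 0 < Real.log m := Real.log_pos (by linarith)
  rw [lt_div_iff₀ (by linarith)] at a3
  rw [Real.norm_of_nonneg l0.le, Real.norm_of_nonneg (by positivity), ← Real.sqrt_eq_rpow] at a2
  have b1 := Chebyshev.theta_le_pi_mul_log m
  have b2 : (0 : ℝ) < Nat.primeCounting m := by
    by_contra h
    have := mul_nonpos_of_nonpos_of_nonneg (not_lt.1 h) l0.le
    linarith
  obtain ⟨R, hR⟩ : ∃ R, R = (Ioc 0 m).filter fun k => decide k.Prime = true ∧ T k = false :=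
    ⟨_, rfl⟩
  have b3 : cnt T m + R.card = Nat.primeCounting m := by
    rw [← Nat.primesLE_card_eq_primeCounting, ← card_filter_add_card_filter_not (s := m.primesLE)
      fun k => T k = true, cnt, hR]
    congr 2
    · ext k
      simp only [mem_filter, mem_Icc, Nat.mem_primesLE]
      exact ⟨fun h => ⟨⟨h.1.2, h3 k h.2⟩, h.2⟩, fun h => ⟨⟨h.1.2.one_le, h.1.1⟩, h.2⟩⟩
    · ext k
      simp only [mem_filter, mem_Ioc, Nat.mem_primesLE, decide_eq_true_eq, Bool.not_eq_true]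
      exact ⟨fun h => ⟨⟨h.1.2, h.2.1⟩, h.2.2⟩, fun h => ⟨⟨h.1.2.pos, h.1.1⟩, h.1.2, h.2⟩⟩
  have b4 := card_log R m fun k hk => (mem_Ioc.1 (mem_filter.1 (hR ▸ hk)).1).1
  have b5 : M * ∑ k ∈ R, Real.log k ≤ m := by
    refine le_trans (le_of_eq ?_) a1.2
    rw [← hR]
    congr 1
    exact sum_congr rfl fun k hk => (if_pos (of_decide_eq_true (mem_filter.1 (hR ▸ hk)).2.1)).symm
  have b6 : 0 ≤ ∑ k ∈ R, Real.log k := sum_nonneg fun k _ => Real.log_natCast_nonneg k
  have b7 : (cnt T m : ℝ) - Nat.primeCounting m = -R.card := by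
    rw [← b3]
    push_cast
    ring
  rw [Real.dist_eq, div_sub_one b2.ne', b7, abs_div, abs_neg, Nat.abs_cast, abs_of_pos b2,
    div_lt_iff₀ b2]
  refine lt_of_mul_lt_mul_right ?_ l0.le
  have c1 := mul_le_mul_of_nonneg_left a2 (Real.sqrt_nonneg m)
  have c2 : √(m : ℝ) * (ε / 8 * √m) = ε / 8 * m := by
    rw [mul_left_comm, Real.mul_self_sqrt (by linarith)]
  have c3 := mul_le_mul_of_nonneg_right hM b6
  have c4 := mul_le_mul_of_nonneg_left b5 hε.le
  have c5 := mul_lt_mul_of_pos_left (a3.trans_le b1) hε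
  have c6 : 0 < ε * m := by positivity
  linarith

end Pool.Agent.P.MP_e2f23e_nt.SD
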