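import Pool.Agent.P.MP_e2f23e_nt.SD.Step

/-! A bounded number of removals makes one area much larger than the other; the stages are then
spread out so thinly that the removed set is as sparse as we like. -/

namespace Pool.Agent.P.MP_e2f23e_nt.SD

open Finset Filter Pool.Agent.P.MP_e2f23e_nt

/-- The area on the side `σ`. -/
def Ar (σ : ℤ) (S : ℕ → Bool) (n : ℕ) : ℤ := ∑ k ∈ Icc 1 n, max (σ * walk S k) 0

lemma Ar_one (S : ℕ → Bool) (n : ℕ) : Ar 1 S n = Apos S n := by simp [Ar, Apos]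

lemma Ar_neg (S : ℕ → Bool) (n : ℕ) : Ar (-1) S n = Aneg S n := by simp [Ar, Aneg]

lemma Ar_nonneg (σ : ℤ) (S : ℕ → Bool) (n : ℕ) : 0 ≤ Ar σ S n :=
  sum_nonneg fun _ _ => le_max_right _ _

lemma Ar_congr (σ : ℤ) {S T : ℕ → Bool} {n : ℕ} (h : ∀ j, j ≤ n → T j = S j) :
    Ar σ T n = Ar σ S n :=
  sum_congr rfl fun k hk => by
    rw [walk_congr fun j hj => h j (hj.le.trans (mem_Icc.1 hk).2)]

/-- The number of removals of one stage. -/
def cost (M : ℕ) : ℕ := 6 * (4 * M + 2) ^ 2 + 1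

lemma stage {S : ℕ → Bool} (hS : Gappy S) (N M : ℕ) {σ : ℤ} (hσ : σ = 1 ∨ σ = -1) :
    ∃ (T : ℕ → Bool) (n : ℕ) (D : Finset ℕ), N < n ∧ (∀ j, j ≤ N → T j = S j) ∧
      (∀ j, T j = true → S j = true) ∧ D.card ≤ cost M ∧ (∀ j, j ∉ D → T j = S j) ∧
      0 < σ * walk T n ∧ M * Ar (-σ) T n < Ar σ T n := by
  obtain ⟨p, hNp, hSp⟩ := hS.1 N
  have hp : 1 ≤ p := by omega
  obtain ⟨F, hF, hpig⟩ := pig hS hp (L := 4 * M + 2) (by omega)
  have hF1 : (1 : ℤ) ≤ F := by exact_mod_cast hp.trans hF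
  have hF2 : (p : ℤ) ≤ F := by exact_mod_cast hF
  obtain ⟨U, t, r, b1, b2, b3, b4, b5, b6, -, b8⟩ := step hS hp hSp hσ (d := 3 * F) (by linarith)
  have hosc := hpig t b6
  have hwp := abs_le.1 (abs_walk_le S hp)
  have hσp : -(F : ℤ) ≤ σ * walk S p := by rcases hσ with rfl | rfl <;> linarith
  have hU : Gappy U := hS.sub b2 (D := {p}) fun j hj => b1 j (by simpa using hj)
  obtain ⟨T, q, D, a1, -, a3, a4, a5, a6, a7, a8, a9⟩ := climb hU (p := r) (by omega)
    (by rw [b1 r (by omega), b5]) hσ hF1 (by have := b8 r b4 le_rfl; linarith)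
    (6 * (4 * M + 2) ^ 2)
  have hup : ∀ m, t ≤ m → m ≤ (4 * M + 2) * t → (F : ℤ) ≤ σ * walk T m := fun m h1 h2 => by
    by_cases h : m ≤ r
    · rw [walk_congr (S := U) fun j hj => a3 j (by omega)]
      have := b8 m h1 h
      linarith
    by_cases h' : m ≤ q
    · exact a9 m (by omega) h'
    have c1 := abs_refl (S := S) (T := T) (p := q) (by omega)
      (fun j hj => by rw [a4 j hj.le, b1 j (by omega)]) (n := m) (by omega)
    have c2 := abs_lt.1 (hosc m (by omega) h2)
    have c3 := abs_lt.1 (hosc q (by omega) (by omega))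
    have c4 : ((6 * (4 * M + 2) ^ 2 : ℕ) : ℤ) ≤ 2 ^ (6 * (4 * M + 2) ^ 2) := by
      exact_mod_cast (Nat.lt_two_pow_self (n := 6 * (4 * M + 2) ^ 2)).le
    have c5 := mul_le_mul_of_nonneg_right c4 (by linarith : (0 : ℤ) ≤ F)
    have c6 : |walk T m - walk T q| < 6 * ((4 * M + 2 : ℕ) : ℤ) ^ 2 * F := by
      rw [c1, abs_lt]
      constructor <;> linarith
    rw [abs_lt] at c6
    push_cast at c5 c6
    rcases hσ with rfl | rfl <;> linarith
  have hlo : ∀ m, 1 ≤ m → m < t → |walk T m| ≤ 4 * F := fun m h1 h2 => by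
    rw [walk_congr (S := U) fun j hj => a3 j (by omega)]
    by_cases h : m ≤ p
    · rw [walk_congr (S := S) fun j hj => b1 j (by omega)]
      have c1 := abs_walk_le S h1
      have c2 : (m : ℤ) ≤ p := by exact_mod_cast h
      linarith
    · have c1 := abs_refl (S := S) (T := U) hp (fun j hj => b1 j (by omega)) (n := m) (by omega)
      have c2 := b6 m (by omega) h2
      rw [← c1, walk_congr (S := S) (n := p) fun j hj => b1 j (by omega), abs_lt] at c2
      rw [abs_le]
      constructor <;> linarith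
  have htn : t ≤ (4 * M + 2) * t := Nat.le_mul_of_pos_left _ (by omega)
  refine ⟨T, (4 * M + 2) * t, insert p D, by omega, fun j hj => ?_, fun j hj => b2 j (a5 j hj),
    (card_insert_le _ _).trans (by rw [cost]; omega), fun j hj => ?_, ?_, ?_⟩
  · rw [a3 j (by omega), b1 j (by omega)]
  · rw [mem_insert, not_or] at hj
    rw [a7 j hj.2, b1 j hj.1]
  · have := hup _ htn le_rfl
    linarith
  · have e1 : Ar (-σ) T ((4 * M + 2) * t) ≤ t * (4 * F) := by
      have c1 : Ar (-σ) T ((4 * M + 2) * t) = ∑ k ∈ Ico 1 t, max (-σ * walk T k) 0 := by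
        refine (sum_subset (fun k hk => ?_) fun k hk hk' => ?_).symm
        · rw [mem_Ico] at hk
          rw [mem_Icc]
          omega
        · rw [mem_Icc] at hk
          rw [mem_Ico] at hk'
          have := hup k (by omega) hk.2
          exact max_eq_right (by linarith)
      have c2 : ∑ k ∈ Ico 1 t, max (-σ * walk T k) 0 ≤ (Ico 1 t).card • (4 * (F : ℤ)) :=
        sum_le_card_nsmul _ _ _ fun k hk => by
          have := abs_le.1 (hlo k (mem_Ico.1 hk).1 (mem_Ico.1 hk).2)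
          refine max_le ?_ (by linarith)
          rcases hσ with rfl | rfl <;> linarith
      rw [Nat.card_Ico, nsmul_eq_mul] at c2
      have c3 : ((t - 1 : ℕ) : ℤ) ≤ t := by exact_mod_cast Nat.sub_le t 1
      rw [c1]
      exact c2.trans (mul_le_mul_of_nonneg_right c3 (by linarith))
    have e2 : ((4 * M + 1) * t + 1) * (F : ℤ) ≤ Ar σ T ((4 * M + 2) * t) := by
      have c1 : ∑ k ∈ Icc t ((4 * M + 2) * t), max (σ * walk T k) 0 ≤
          Ar σ T ((4 * M + 2) * t) :=
        sum_le_sum_of_subset_of_nonneg (Icc_subset_Icc_left (by omega)) fun _ _ _ =>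
          le_max_right _ _
      have c2 : (Icc t ((4 * M + 2) * t)).card • (F : ℤ) ≤
          ∑ k ∈ Icc t ((4 * M + 2) * t), max (σ * walk T k) 0 :=
        card_nsmul_le_sum _ _ _ fun k hk =>
          le_max_of_le_left (hup k (mem_Icc.1 hk).1 (mem_Icc.1 hk).2)
      have c3 : (4 * M + 2) * t + 1 - t = (4 * M + 1) * t + 1 := by
        have : (4 * M + 2) * t = (4 * M + 1) * t + t := by ring
        omega
      rw [Nat.card_Icc, c3, nsmul_eq_mul] at c2
      push_cast at c2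
      exact c2.trans c1
    have e3 := mul_le_mul_of_nonneg_left e1 (Int.natCast_nonneg M)
    have e4 : (0 : ℤ) ≤ t * F := by positivity
    nlinarith

theorem main {S : ℕ → Bool} (hS : Gappy S) {w : ℕ → ℕ} (hw : Tendsto w atTop atTop) :
    ∃ T : ℕ → Bool, (∀ k, T k = true → S k = true) ∧
      (∀ x, ((Icc 1 x).filter fun k => S k = true ∧ T k = false).card ≤ w x) ∧
      (∃ᶠ k in atTop, walk T k = 0) ∧ ∀ M : ℕ,
        (∃ᶠ n in atTop, M * Aneg T n < Apos T n) ∧ ∃ᶠ n in atTop, M * Apos T n < Aneg T n := by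
  choose thr hthr using fun B => eventually_atTop.1 (tendsto_atTop.1 hw B)
  have hst : ∀ (j : ℕ) (x : {U : ℕ → Bool // Gappy U} × ℕ),
      ∃ y : {U : ℕ → Bool // Gappy U} × ℕ, thr (∑ i ∈ range (j + 2), cost i) ≤ y.2 ∧
        ∃ (n : ℕ) (D : Finset ℕ), x.2 < n ∧ n ≤ y.2 ∧ (∀ k, k ≤ x.2 → y.1.1 k = x.1.1 k) ∧
          (∀ k, y.1.1 k = true → x.1.1 k = true) ∧ D.card ≤ cost j ∧
          (∀ k, k ∉ D → y.1.1 k = x.1.1 k) ∧ 0 < (-1) ^ j * walk y.1.1 n ∧
          j * Ar (-(-1) ^ j) y.1.1 n < Ar ((-1) ^ j) y.1.1 n := fun j x => by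
    obtain ⟨T, n, D, a1, a2, a3, a4, a5, a6, a7⟩ := stage x.1.2 x.2 j (neg_one_pow_eq_or ℤ j)
    exact ⟨(⟨T, x.1.2.sub a3 a5⟩, max n (thr (∑ i ∈ range (j + 2), cost i))), le_max_right _ _,
      n, D, a1, le_max_left _ _, a2, a3, a4, a5, a6, a7⟩
  choose nx h1 n D h2 h3 h4 h5 h6 h7 h8 h9 using hst
  let f : ℕ → {U : ℕ → Bool // Gappy U} × ℕ := fun j =>
    Nat.rec (⟨S, hS⟩, thr (∑ i ∈ range 1, cost i)) nx j
  have f0 : (f 0).1.1 = S := rfl
  have fs : ∀ j, f (j + 1) = nx j (f j) := fun _ => rfl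
  have fthr : ∀ j, thr (∑ i ∈ range (j + 1), cost i) ≤ (f j).2 := fun j => by
    cases j with
    | zero => exact le_rfl
    | succ j => exact h1 j (f j)
  have fmono : StrictMono fun j => (f j).2 := strictMono_nat_of_lt_succ fun j =>
    (h2 j (f j)).trans_le (h3 j (f j))
  have fle : ∀ j, j ≤ (f j).2 := fun j => fmono.id_le j
  have fag : ∀ i j k, k ≤ (f j).2 → (f (j + i)).1.1 k = (f j).1.1 k := fun i j k hk => by
    induction i with
    | zero => rfl
    | succ i ih =>
      rw [← add_assoc, fs, h4 _ _ k (hk.trans (fmono.monotone (Nat.le_add_right j i))), ih]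
  have lim : ∀ j k, k ≤ (f j).2 → (f k).1.1 k = (f j).1.1 k := fun j k hk => by
    rw [← fag k j k hk, add_comm, fag j k k (fle k)]
  have fsub : ∀ j k, (f j).1.1 k = true → S k = true := fun j => by
    induction j with
    | zero => exact fun _ h => h
    | succ j ih => exact fun k hk => ih k (h5 j (f j) k hk)
  have fD : ∀ j, ∃ E : Finset ℕ, E.card ≤ ∑ i ∈ range j, cost i ∧
      ∀ k, k ∉ E → (f j).1.1 k = S k := fun j => by
    induction j with
    | zero => exact ⟨∅, by simp, fun _ _ => rfl⟩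
    | succ j ih =>
      obtain ⟨E, e1, e2⟩ := ih
      refine ⟨E ∪ D j (f j), (card_union_le _ _).trans ?_, fun k hk => ?_⟩
      · rw [sum_range_succ]
        exact add_le_add e1 (h6 j (f j))
      · rw [mem_union, not_or] at hk
        rw [fs, h7 j (f j) k hk.2, e2 k hk.1]
  have hw1 : ∀ j, 0 < (-1) ^ j * walk (fun k => (f k).1.1 k) (n j (f j)) := fun j => by
    rw [walk_congr (S := (f (j + 1)).1.1) fun k hk =>
      lim (j + 1) k (hk.le.trans (h3 j (f j)))]
    exact h8 j (f j)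
  have hw2 : ∀ j : ℕ, j * Ar (-(-1) ^ j) (fun k => (f k).1.1 k) (n j (f j)) <
      Ar ((-1) ^ j) (fun k => (f k).1.1 k) (n j (f j)) := fun j => by
    rw [Ar_congr _ (S := (f (j + 1)).1.1) fun k hk => lim (j + 1) k (hk.trans (h3 j (f j))),
      Ar_congr _ (S := (f (j + 1)).1.1) fun k hk => lim (j + 1) k (hk.trans (h3 j (f j)))]
    exact h9 j (f j)
  have hn : ∀ j, j < n j (f j) := fun j => (fle j).trans_lt (h2 j (f j))
  refine ⟨fun k => (f k).1.1 k, fun k => fsub k k, fun x => ?_, frequently_atTop.2 fun a => ?_,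
    fun M => ⟨frequently_atTop.2 fun a => ?_, frequently_atTop.2 fun a => ?_⟩⟩
  · have ex : ∃ j, x ≤ (f j).2 := ⟨x, fle x⟩
    have e1 := Nat.find_spec ex
    have e2 := fun m => Nat.find_min ex (m := m)
    generalize Nat.find ex = j at e1 e2
    obtain ⟨E, e3, e4⟩ := fD j
    have e5 : ((Icc 1 x).filter fun k => S k = true ∧ (f k).1.1 k = false) ⊆ E := fun k hk => by
      rw [mem_filter, mem_Icc] at hk
      by_contra hE
      have := hk.2.2
      rw [lim j k (hk.1.2.trans e1), e4 k hE, hk.2.1] at this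
      exact absurd this (by simp)
    refine (card_le_card e5).trans (e3.trans ?_)
    cases j with
    | zero => simp
    | succ j => exact hthr _ x ((fthr j).trans (not_le.1 (e2 j (by omega))).le)
  · have e1 := hw1 (2 * a)
    have e2 := hw1 (2 * a + 1)
    rw [pow_succ] at e2
    rw [(even_two_mul a).neg_one_pow] at e1 e2
    have e3 : n (2 * a) (f (2 * a)) ≤ n (2 * a + 1) (f (2 * a + 1)) :=
      (h3 _ _).trans (h2 (2 * a + 1) (f (2 * a + 1))).le
    obtain ⟨d, hd⟩ := Nat.exists_eq_add_of_le e3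
    have e4 := hn (2 * a)
    obtain ⟨k, e5, e6⟩ := exists_zero (fun k => (f k).1.1 k) (a := n (2 * a) (f (2 * a)))
      (by omega) (by linarith) d (by rw [← hd]; linarith)
    exact ⟨k, by omega, e6⟩
  · have e1 := hw2 (2 * (a + M))
    have e2 := hn (2 * (a + M))
    rw [(even_two_mul (a + M)).neg_one_pow, Ar_one, Ar_neg] at e1
    refine ⟨_, by omega, lt_of_le_of_lt ?_ e1⟩
    rw [← Ar_neg]
    exact mul_le_mul_of_nonneg_right (by exact_mod_cast (by omega)) (Ar_nonneg _ _ _)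
  · have e1 := hw2 (2 * (a + M) + 1)
    have e2 := hn (2 * (a + M) + 1)
    rw [(odd_two_mul_add_one (a + M)).neg_one_pow, neg_neg, Ar_one, Ar_neg] at e1
    refine ⟨_, by omega, lt_of_le_of_lt ?_ e1⟩
    rw [← Ar_one]
    exact mul_le_mul_of_nonneg_right (by exact_mod_cast (by omega)) (Ar_nonneg _ _ _)

/-- The primes are infinite and have arbitrarily long gaps. -/
theorem primes_gappy : Gappy fun k => decide k.Prime := by
  refine ⟨fun N => ?_, fun L => ⟨(L + 1).factorial + 1, fun k h1 h2 => ?_⟩⟩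
  · obtain ⟨p, h1, h2⟩ := Nat.exists_infinite_primes (N + 1)
    exact ⟨p, h1, by simpa using h2⟩
  · obtain ⟨i, rfl⟩ := Nat.exists_eq_add_of_le (show (L + 1).factorial ≤ k by omega)
    have h3 : i ∣ (L + 1).factorial + i :=
      Dvd.dvd.add (Nat.dvd_factorial (by omega) (by omega)) dvd_rfl
    have h4 := Nat.factorial_pos (L + 1)
    simp only [decide_eq_false_iff_not]
    intro hp
    rcases hp.eq_one_or_self_of_dvd i h3 with h | h <;> omega

end Pool.Agent.P.MP_e2f23e_nt.SD
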