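import Pool.Agent.P.MP_e2f23e_nt.Det

/-! Removing one member of the set reflects the rest of the walk. -/

namespace Pool.Agent.P.MP_e2f23e_nt.SD

open Finset Pool.Agent.P.MP_e2f23e_nt

/-- The set is infinite and has arbitrarily long gaps. -/
def Gappy (S : ℕ → Bool) : Prop :=
  (∀ N, ∃ p, N < p ∧ S p = true) ∧ ∀ L, ∃ a, ∀ k, a < k → k ≤ a + L → S k = false

lemma cnt_congr {S T : ℕ → Bool} {k : ℕ} (h : ∀ j, j ≤ k → T j = S j) : cnt T k = cnt S k := by
  rw [cnt, cnt, filter_congr fun j hj => by rw [h j (mem_Icc.1 hj).2]]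

lemma walk_congr {S T : ℕ → Bool} {n : ℕ} (h : ∀ j, j < n → T j = S j) :
    walk T n = walk S n :=
  sum_congr rfl fun k hk => by
    rw [cnt_congr fun j hj => h j (lt_of_le_of_lt hj (mem_Ico.1 hk).2)]

lemma sgn_refl {S T : ℕ → Bool} {p : ℕ} (h : ∀ j, p < j → T j = S j) (i : ℕ) :
    ((-1 : ℤ)) ^ cnt T (p + i) = (-1) ^ (cnt S p + cnt T p) * (-1) ^ cnt S (p + i) := by
  induction i with
  | zero =>
    rw [add_zero, pow_add]
    rcases neg_one_pow_eq_or ℤ (cnt S p) with e | e <;> rw [e] <;> ring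
  | succ i ih =>
    rw [← add_assoc, cnt_succ, cnt_succ, h (p + i + 1) (by omega), pow_add, ih, pow_add _ (cnt S (p + i))]
    ring

lemma walk_refl {S T : ℕ → Bool} {p : ℕ} (hp : 1 ≤ p) (h : ∀ j, p < j → T j = S j) {n : ℕ}
    (hn : p ≤ n) :
    walk T n - walk T p = (-1) ^ (cnt S p + cnt T p) * (walk S n - walk S p) := by
  obtain ⟨i, rfl⟩ := Nat.exists_eq_add_of_le hn
  induction i with
  | zero => simp
  | succ i ih =>
    have := ih (by omega)
    rw [← add_assoc, walk_succ T (by omega), walk_succ S (by omega), sgn_refl h]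
    linear_combination this

lemma abs_refl {S T : ℕ → Bool} {p : ℕ} (hp : 1 ≤ p) (h : ∀ j, p < j → T j = S j) {n : ℕ}
    (hn : p ≤ n) : |walk T n - walk T p| = |walk S n - walk S p| := by
  rw [walk_refl hp h hn, abs_mul, abs_neg_one_pow, one_mul]

lemma lip (S : ℕ → Bool) {p : ℕ} (hp : 1 ≤ p) (i : ℕ) : |walk S (p + i) - walk S p| ≤ i := by
  induction i with
  | zero => simp
  | succ i ih =>
    rw [← add_assoc, walk_succ S (by omega)]
    rw [abs_le] at ih ⊢
    rcases neg_one_pow_eq_or ℤ (cnt S (p + i)) with e | e <;> rw [e] <;> push_cast <;> omega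

lemma abs_walk_le (S : ℕ → Bool) {m : ℕ} (hm : 1 ≤ m) : |walk S m| ≤ m := by
  obtain ⟨i, rfl⟩ := Nat.exists_eq_add_of_le hm
  have := lip S le_rfl i
  have h1 : walk S 1 = 0 := by simp [walk]
  rw [h1, sub_zero] at this
  push_cast
  omega

lemma straight (S : ℕ → Bool) {a : ℕ} (ha : 1 ≤ a) (i : ℕ)
    (h : ∀ k, a < k → k < a + i → S k = false) :
    walk S (a + i) = walk S a + i * (-1) ^ cnt S a := by
  have hc : ∀ j, j < i → cnt S (a + j) = cnt S a := fun j hj => by
    induction j with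
    | zero => rfl
    | succ j ih =>
      rw [← add_assoc, cnt_succ, ih (by omega), h (a + j + 1) (by omega) (by omega)]
      simp
  induction i with
  | zero => simp
  | succ i ih =>
    rw [← add_assoc, walk_succ S (by omega), hc i (by omega),
      ih (fun k h1 h2 => h k h1 (by omega)) fun j hj => hc j (by omega)]
    push_cast
    ring

lemma Gappy.far {S : ℕ → Bool} (hS : Gappy S) {p : ℕ} (hp : 1 ≤ p) (d : ℤ) :
    ∃ n, p ≤ n ∧ d ≤ |walk S n - walk S p| := by
  obtain ⟨a, ha⟩ := hS.2 (p + 2 * d.toNat)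
  have h := straight S (a := a + p) (by omega) (2 * d.toNat) fun k h1 h2 =>
    ha k (by omega) (by omega)
  by_contra hn
  push Not at hn
  have h1 := hn (a + p) (by omega)
  have h2 := hn (a + p + 2 * d.toNat) (by omega)
  rw [abs_lt] at h1 h2
  rcases neg_one_pow_eq_or ℤ (cnt S (a + p)) with e | e <;> rw [e] at h <;> push_cast at h <;>
    omega

lemma Gappy.sub {S T : ℕ → Bool} (hS : Gappy S) (h : ∀ j, T j = true → S j = true)
    {D : Finset ℕ} (hD : ∀ j, j ∉ D → T j = S j) : Gappy T := by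
  refine ⟨fun N => ?_, fun L => ?_⟩
  · obtain ⟨p, hp, e⟩ := hS.1 (N + D.sup id)
    refine ⟨p, by omega, ?_⟩
    rw [hD p fun hm => ?_, e]
    have := le_sup (f := id) hm
    simp only [id] at this
    omega
  · obtain ⟨a, ha⟩ := hS.2 L
    refine ⟨a, fun k h1 h2 => ?_⟩
    have := ha k h1 h2
    by_contra hk
    rw [h k (by simpa using hk)] at this
    exact absurd this (by simp)

/-- Keeping or removing `p`, the walk moves by `d` to the side `σ` before it moves by `d` to the
other side, and then runs on to the next member `q`. -/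
lemma step {S : ℕ → Bool} (hS : Gappy S) {p : ℕ} (hp : 1 ≤ p) (hSp : S p = true) {σ : ℤ}
    (hσ : σ = 1 ∨ σ = -1) {d : ℤ} (hd : 1 ≤ d) :
    ∃ (T : ℕ → Bool) (t q : ℕ), (∀ k, k ≠ p → T k = S k) ∧ (∀ k, T k = true → S k = true) ∧
      p < t ∧ t ≤ q ∧ S q = true ∧ (∀ m, p ≤ m → m < t → |walk S m - walk S p| < d) ∧
      (∀ m, p ≤ m → m ≤ q → σ * walk S p - d < σ * walk T m) ∧
      ∀ m, t ≤ m → m ≤ q → σ * walk S p + d ≤ σ * walk T m := by
  classical
  have ex := hS.far hp d
  obtain ⟨ht1, ht2⟩ := Nat.find_spec ex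
  have hmin : ∀ m, p ≤ m → m < Nat.find ex → |walk S m - walk S p| < d := fun m h1 h2 => by
    have := Nat.find_min ex h2
    push Not at this
    exact this h1
  generalize Nat.find ex = t at ht1 ht2 hmin
  have hpt : p < t := by
    rcases ht1.lt_or_eq with h | h
    · exact h
    · rw [← h] at ht2
      simp at ht2
      omega
  have exq : ∃ q, t ≤ q ∧ S q = true := by
    obtain ⟨q, h1, h2⟩ := hS.1 t
    exact ⟨q, h1.le, h2⟩
  obtain ⟨hq1, hq2⟩ := Nat.find_spec exq
  have hqmin : ∀ k, t ≤ k → k < Nat.find exq → S k = false := fun k h1 h2 => by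
    have := Nat.find_min exq h2
    push Not at this
    simpa using this h1
  generalize Nat.find exq = q at hq1 hq2 hqmin
  obtain ⟨s, rfl⟩ : ∃ s, t = s + 1 := ⟨t - 1, by omega⟩
  have hs := hmin s (by omega) (by omega)
  -- the direction of the last step
  have run : ∀ m, s + 1 ≤ m → m ≤ q →
      d ≤ (-1) ^ cnt S s * (walk S m - walk S p) := fun m h1 h2 => by
    obtain ⟨i, rfl⟩ := Nat.exists_eq_add_of_le (show s ≤ m by omega)
    have h3 := straight S (a := s) (by omega) i fun k h4 h5 => hqmin k (by omega) (by omega)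
    rw [walk_succ S (by omega), le_abs] at ht2
    rw [abs_lt] at hs
    rw [h3]
    rcases neg_one_pow_eq_or ℤ (cnt S s) with e | e <;> rw [e] at ht2 ⊢ <;> omega
  -- the choice
  have key : ∃ T : ℕ → Bool, (∀ k, k ≠ p → T k = S k) ∧ (∀ k, T k = true → S k = true) ∧
      ∀ m, p ≤ m → σ * (walk T m - walk S p) = (-1) ^ cnt S s * (walk S m - walk S p) := by
    by_cases e : σ = (-1) ^ cnt S s
    · exact ⟨S, fun _ _ => rfl, fun _ h => h, fun m _ => by rw [e]⟩
    · have hT : ∀ k, k ≠ p → Function.update S p false k = S k := fun k hk =>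
        Function.update_of_ne hk _ _
      refine ⟨Function.update S p false, hT, fun k hk => ?_, fun m hm => ?_⟩
      · by_cases h : k = p
        · rw [h, hSp]
        · rwa [hT k h] at hk
      · have h1 := walk_refl hp (fun j hj => hT j (by omega)) hm
        have h2 : walk (Function.update S p false) p = walk S p :=
          walk_congr fun j hj => hT j (by omega)
        obtain ⟨r, rfl⟩ : ∃ r, p = r + 1 := ⟨p - 1, by omega⟩
        have h3 : cnt (Function.update S (r + 1) false) r = cnt S r :=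
          cnt_congr fun j hj => hT j (by omega)
        rw [h2, cnt_succ, cnt_succ, h3, hSp, Function.update_self] at h1
        have h4 : ((-1 : ℤ)) ^ (cnt S r + (if true = true then 1 else 0) +
            (cnt S r + if false = true then 1 else 0)) = -1 := by
          apply Odd.neg_one_pow
          simp only [if_true, Bool.false_eq_true, if_false]
          exact ⟨cnt S r, by omega⟩
        rw [h1, h4]
        rcases neg_one_pow_eq_or ℤ (cnt S s) with e' | e' <;> rw [e'] at e ⊢ <;>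
          rcases hσ with rfl | rfl <;> first | exact absurd rfl e | ring
  obtain ⟨T, hT1, hT2, hT3⟩ := key
  refine ⟨T, s + 1, q, hT1, hT2, hpt, hq1, hq2, hmin, fun m h1 h2 => ?_, fun m h1 h2 => ?_⟩
  · have h3 := hT3 m h1
    by_cases h : m < s + 1
    · have h4 := hmin m h1 h
      rw [abs_lt] at h4
      rcases neg_one_pow_eq_or ℤ (cnt S s) with e | e <;> rw [e] at h3 <;> linarith
    · have := run m (by omega) h2
      linarith
  · have h3 := hT3 m (by omega)
    have := run m h1 h2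
    linarith

/-- After `k` steps the height over the floor `F` has been doubled `k` times. -/
lemma climb {S : ℕ → Bool} (hS : Gappy S) {p : ℕ} (hp : 1 ≤ p) (hSp : S p = true) {σ : ℤ}
    (hσ : σ = 1 ∨ σ = -1) {F : ℤ} (hF : 1 ≤ F) (h0 : 2 * F ≤ σ * walk S p) (k : ℕ) :
    ∃ (T : ℕ → Bool) (q : ℕ) (D : Finset ℕ), p ≤ q ∧ S q = true ∧ (∀ j, j < p → T j = S j) ∧
      (∀ j, q ≤ j → T j = S j) ∧ (∀ j, T j = true → S j = true) ∧ D.card ≤ k ∧
      (∀ j, j ∉ D → T j = S j) ∧ F + 2 ^ k * F ≤ σ * walk T q ∧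
      ∀ m, p ≤ m → m ≤ q → F ≤ σ * walk T m := by
  induction k with
  | zero =>
    refine ⟨S, p, ∅, le_rfl, hSp, fun _ _ => rfl, fun _ _ => rfl, fun _ h => h, by simp,
      fun _ _ => rfl, by linarith, fun m h1 h2 => ?_⟩
    rw [le_antisymm h2 h1]
    linarith
  | succ k ih =>
    obtain ⟨T, q, D, a1, a2, a3, a4, a5, a6, a7, a8, a9⟩ := ih
    have hk : (1 : ℤ) ≤ 2 ^ k * F := one_le_mul_of_one_le_of_one_le (one_le_pow₀ (by norm_num)) hF
    obtain ⟨U, t, r, b1, b2, b3, b4, b5, -, b7, b8⟩ := step (hS.sub a5 a7) (p := q) (by omega)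
      (by rw [a4 q le_rfl, a2]) hσ (d := σ * walk T q - F) (by linarith)
    refine ⟨U, r, insert q D, by omega, by rw [← a4 r (by omega), b5], fun j hj => ?_,
      fun j hj => ?_, fun j hj => a5 j (b2 j hj), (card_insert_le _ _).trans (by omega),
      fun j hj => ?_, ?_, fun m h1 h2 => ?_⟩
    · rw [b1 j (by omega), a3 j hj]
    · rw [b1 j (by omega), a4 j (by omega)]
    · rw [mem_insert, not_or] at hj
      rw [b1 j hj.1, a7 j hj.2]
    · have := b8 r b4 le_rfl
      rw [pow_succ]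
      linarith
    · by_cases h : m ≤ q
      · rw [walk_congr (S := T) fun j hj => b1 j (by omega)]
        exact a9 m h1 h
      · have := b7 m (by omega) h2
        linarith

/-- At some level the oscillation grows by less than `L ^ 2` while the time grows by `L`. -/
lemma pig {S : ℕ → Bool} (hS : Gappy S) {p : ℕ} (hp : 1 ≤ p) {L : ℕ} (hL : 2 ≤ L) :
    ∃ F : ℕ, p ≤ F ∧ ∀ t, (∀ m, p ≤ m → m < t → |walk S m - walk S p| < 3 * F) →
      ∀ m, p ≤ m → m ≤ L * t → |walk S m - walk S p| < 3 * L ^ 2 * F := by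
  by_contra hn
  push Not at hn
  obtain ⟨m0, h0, h1⟩ := hS.far hp (3 * p)
  have key : ∀ i : ℕ, ∃ m, p ≤ m ∧ m ≤ L ^ i * m0 ∧
      3 * ((L ^ i * L ^ i * p : ℕ) : ℤ) ≤ |walk S m - walk S p| := fun i => by
    induction i with
    | zero => exact ⟨m0, h0, by simp, by simpa using h1⟩
    | succ i ih =>
      obtain ⟨m, a1, a2, a3⟩ := ih
      have hpos : 0 < L ^ i * L ^ i := by positivity
      obtain ⟨t, b1, m', b2, b3, b4⟩ := hn (L ^ i * L ^ i * p) (Nat.le_mul_of_pos_left _ hpos)
      have htm : t ≤ m := by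
        by_contra h
        exact absurd (b1 m a1 (by omega)) (not_lt.2 a3)
      refine ⟨m', b2, b3.trans ?_, le_trans (le_of_eq ?_) b4⟩
      · rw [pow_succ', mul_assoc]
        exact Nat.mul_le_mul_left _ (htm.trans a2)
      · push_cast
        ring
  obtain ⟨m, a1, a2, a3⟩ := key m0
  obtain ⟨i, rfl⟩ := Nat.exists_eq_add_of_le a1
  have h2 := lip S hp i
  have h3 : m0 < L ^ m0 := Nat.lt_pow_self (by omega)
  have h4 : 3 * (L ^ m0 * L ^ m0 * p) ≤ i := by exact_mod_cast a3.trans h2
  have h5 : L ^ m0 * m0 ≤ L ^ m0 * L ^ m0 := Nat.mul_le_mul_left _ h3.le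
  have h6 : L ^ m0 * L ^ m0 ≤ L ^ m0 * L ^ m0 * p := Nat.le_mul_of_pos_right _ hp
  omega

end Pool.Agent.P.MP_e2f23e_nt.SD
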