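import Pool.Agent.P.MP_e2f23e_nt.SD.Step

/-! One window: the walk runs to a prescribed level and is then steered so that it stays there. -/

namespace Pool.Agent.P.MP_e2f23e_nt.SD

open Finset Pool.Agent.P.MP_e2f23e_nt

lemma toggle {S : ℕ → Bool} {p : ℕ} (hp : 1 ≤ p) (hSp : S p = true) :
    ∃ T : ℕ → Bool, (∀ k, k ≠ p → T k = S k) ∧ (∀ k, T k = true → S k = true) ∧
      ∀ m, p ≤ m → walk T m - walk S p = -(walk S m - walk S p) := by
  have hT : ∀ k, k ≠ p → Function.update S p false k = S k := fun k hk =>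
    Function.update_of_ne hk _ _
  refine ⟨Function.update S p false, hT, fun k hk => ?_, fun m hm => ?_⟩
  · by_cases h : k = p
    · rw [h, hSp]
    · rwa [hT k h] at hk
  · have h1 := walk_refl hp (fun j hj => hT j (by omega)) hm
    have h2 : walk (Function.update S p false) p = walk S p :=
      walk_congr fun j hj => hT j (by omega)
    obtain ⟨r, rfl⟩ : ∃ r, p = r + 1 := ⟨p - 1, by omega⟩
    have h3 : cnt (Function.update S (r + 1) false) r = cnt S r :=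
      cnt_congr fun j hj => hT j (by omega)
    rw [h2, cnt_succ, cnt_succ, h3, hSp, Function.update_self] at h1
    have h4 : ((-1 : ℤ)) ^ (cnt S r + (if true = true then 1 else 0) +
        (cnt S r + if false = true then 1 else 0)) = -1 := by
      apply Odd.neg_one_pow
      simp only [if_true, Bool.false_eq_true, if_false]
      exact ⟨cnt S r, by omega⟩
    rw [h1, h4]
    ring

lemma steer {S : ℕ → Bool} {p q : ℕ} (hp : 1 ≤ p) (hSp : S p = true) (hq : p ≤ q) (σ : ℤ) :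
    ∃ T : ℕ → Bool, (∀ k, k ≠ p → T k = S k) ∧ (∀ k, T k = true → S k = true) ∧
      0 ≤ σ * (walk T q - walk S p) := by
  by_cases h : 0 ≤ σ * (walk S q - walk S p)
  · exact ⟨S, fun _ _ => rfl, fun _ h => h, h⟩
  · obtain ⟨T, a1, a2, a3⟩ := toggle hp hSp
    refine ⟨T, a1, a2, ?_⟩
    rw [a3 q hq]
    linarith

lemma run {S : ℕ → Bool} {p q : ℕ} (hp : 1 ≤ p) (hSp : S p = true) (hq : p ≤ q) {σ : ℤ}
    (hσ : σ = 1 ∨ σ = -1) :
    ∃ T : ℕ → Bool, (∀ k, k < p ∨ q ≤ k → T k = S k) ∧ (∀ k, T k = true → S k = true) ∧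
      walk T q = walk S p + σ * (q - p) := by
  rcases hq.lt_or_eq with hq' | rfl
  swap
  · exact ⟨S, fun _ _ => rfl, fun _ h => h, by simp⟩
  obtain ⟨i, rfl⟩ := Nat.exists_eq_add_of_le hq
  obtain ⟨U, hU⟩ : ∃ U : ℕ → Bool, ∀ k, U k = if p < k ∧ k < p + i then false else S k :=
    ⟨_, fun _ => rfl⟩
  have u1 : ∀ k, k ≤ p ∨ p + i ≤ k → U k = S k := fun k hk => by rw [hU, if_neg (by omega)]
  have u2 := straight U hp i fun k h1 h2 => by rw [hU, if_pos ⟨h1, h2⟩]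
  have u3 : walk U p = walk S p := walk_congr fun j hj => u1 j (by omega)
  obtain ⟨T, a1, a2, a3⟩ := steer (S := U) hp (by rw [u1 p (by omega), hSp]) hq σ
  have u4 := abs_refl (S := U) (T := T) hp (fun j hj => a1 j (by omega)) hq
  have u5 : walk T p = walk U p := walk_congr fun j hj => a1 j (by omega)
  refine ⟨T, fun k hk => by rw [a1 k (by omega), u1 k (by omega)], fun k hk => ?_, ?_⟩
  · have := a2 k hk
    rw [hU] at this
    split_ifs at this
    exact this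
  · rw [u2, u5, u3, add_sub_cancel_left, abs_mul, abs_neg_one_pow, mul_one, Nat.abs_cast,
      abs_eq (by positivity)] at u4
    rw [u3] at a3
    push_cast
    rcases hσ with rfl | rfl <;> omega

lemma lip' (S : ℕ → Bool) {p m : ℕ} (hp : 1 ≤ p) (hm : p ≤ m) :
    |walk S m - walk S p| ≤ m - p := by
  obtain ⟨i, rfl⟩ := Nat.exists_eq_add_of_le hm
  simpa using lip S hp i

/-- Run from `p` to the level `l`. -/
lemma reach {S : ℕ → Bool} {p W : ℕ} (hp : 1 ≤ p) (hSp : S p = true) (l : ℤ)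
    (gap : ∃ q, p + (walk S p - l).natAbs ≤ q ∧ q ≤ p + (walk S p - l).natAbs + W ∧ S q = true) :
    ∃ (T : ℕ → Bool) (q : ℕ), p ≤ q ∧ q ≤ p + (walk S p - l).natAbs + W ∧ S q = true ∧
      (∀ k, k < p ∨ q ≤ k → T k = S k) ∧ (∀ k, T k = true → S k = true) ∧
      |walk T q - l| ≤ W := by
  obtain ⟨q, h1, h2, h3⟩ := gap
  by_cases h : l ≤ walk S p
  · obtain ⟨T, a1, a2, a3⟩ := run hp hSp (q := q) (by omega) (σ := -1) (Or.inr rfl)
    exact ⟨T, q, by omega, h2, h3, a1, a2, by rw [abs_le]; omega⟩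
  · obtain ⟨T, a1, a2, a3⟩ := run hp hSp (q := q) (by omega) (σ := 1) (Or.inl rfl)
    exact ⟨T, q, by omega, h2, h3, a1, a2, by rw [abs_le]; omega⟩

/-- Stay near the level `l`, at the price of one removal per interval of length about `W`. -/
lemma hold {S : ℕ → Bool} {p W r : ℕ} (hp : 1 ≤ p) (hSp : S p = true) (hW : 1 ≤ W) (l : ℤ)
    (h0 : |walk S p - l| ≤ W)
    (gap : ∀ a, p ≤ a → a ≤ p + 2 * (r * W) → ∃ q, a ≤ q ∧ q ≤ a + W ∧ S q = true) (i : ℕ)
    (hi : i ≤ r) :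
    ∃ (T : ℕ → Bool) (q : ℕ) (E : Finset ℕ), p + i * W ≤ q ∧ q ≤ p + 2 * (i * W) ∧ S q = true ∧
      (∀ k, k < p ∨ q ≤ k → T k = S k) ∧ (∀ k, T k = true → S k = true) ∧
      (∀ k, k ∉ E → T k = S k) ∧ E.card ≤ i ∧ (∀ k ∈ E, p ≤ k ∧ k ≤ q) ∧
      |walk T q - l| ≤ 2 * W ∧ ∀ m, p ≤ m → m ≤ q → |walk T m - l| ≤ 4 * W := by
  induction i with
  | zero =>
    refine ⟨S, p, ∅, by simp, by simp, hSp, fun _ _ => rfl, fun _ h => h, fun _ _ => rfl, by simp,
      by simp, by omega, fun m h1 h2 => ?_⟩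
    rw [le_antisymm h2 h1]
    omega
  | succ i ih =>
    obtain ⟨T, q, E, a1, a2, a3, a4, a5, a6, a7, a8, a9, a10⟩ := ih (by omega)
    have e1 : (i + 1) * W = i * W + W := by ring
    have e2 : (i + 1) * W ≤ r * W := Nat.mul_le_mul_right _ hi
    obtain ⟨q', b1, b2, b3⟩ := gap (q + W) (by omega) (by omega)
    obtain ⟨U, c1, c2, c3⟩ := steer (S := T) (p := q) (q := q') (by omega)
      (by rw [a4 q (Or.inr le_rfl), a3]) (by omega) (if l ≤ walk T q then -1 else 1)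
    have e3 : ∀ m, m ≤ q → walk U m = walk T m := fun m hm =>
      walk_congr fun j hj => c1 j (by omega)
    have e4 : ∀ m, q ≤ m → |walk U m - walk T q| ≤ m - q := fun m hm => by
      rw [← e3 q le_rfl]
      exact lip' U (by omega) hm
    refine ⟨U, q', insert q E, by omega, by omega, b3, fun k hk => ?_, fun k hk => a5 k (c2 k hk),
      fun k hk => ?_, (card_insert_le _ _).trans (by omega), fun k hk => ?_, ?_, fun m h1 h2 => ?_⟩
    · rw [c1 k (by omega), a4 k (by omega)]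
    · rw [mem_insert, not_or] at hk
      rw [c1 k hk.1, a6 k hk.2]
    · rcases mem_insert.1 hk with rfl | hk
      · omega
      · have := a8 k hk
        omega
    · have e5 := e4 q' (by omega)
      rw [abs_le] at e5 a9 ⊢
      split_ifs at c3 <;> omega
    · by_cases h : m ≤ q
      · rw [e3 m h]
        exact a10 m h1 h
      · have e5 := e4 m (by omega)
        rw [abs_le] at e5 a9 ⊢
        omega

lemma sum_le_mul {f : ℕ → ℤ} {a b : ℕ} (hab : a ≤ b) {c : ℤ} (h : ∀ k, a < k → k ≤ b → f k ≤ c) :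
    ∑ k ∈ Ioc a b, f k ≤ (b - a) * c := by
  have := sum_le_card_nsmul (Ioc a b) f c fun k hk => h k (mem_Ioc.1 hk).1 (mem_Ioc.1 hk).2
  rwa [Nat.card_Ioc, nsmul_eq_mul, Nat.cast_sub hab] at this

lemma mul_le_sum {f : ℕ → ℤ} {a b : ℕ} (hab : a ≤ b) {c : ℤ} (h : ∀ k, a < k → k ≤ b → c ≤ f k) :
    (b - a) * c ≤ ∑ k ∈ Ioc a b, f k := by
  have := card_nsmul_le_sum (Ioc a b) f c fun k hk => h k (mem_Ioc.1 hk).1 (mem_Ioc.1 hk).2
  rwa [Nat.card_Ioc, nsmul_eq_mul, Nat.cast_sub hab] at this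

/-- One window. -/
lemma win {S : ℕ → Bool} {n W K : ℕ} (hn : 1 ≤ n) (hSn : S n = true) (hW : 1 ≤ W) (hK : 18 ≤ K)
    {σ : ℤ} (hσ : σ = 1 ∨ σ = -1) (h0 : |walk S n| ≤ 8 * (K * W))
    (gap : ∀ a, n ≤ a → a + W ≤ n + 18 * (K ^ 3 * W) → ∃ q, a ≤ q ∧ q ≤ a + W ∧ S q = true) :
    ∃ (T : ℕ → Bool) (p q : ℕ) (E : Finset ℕ), n ≤ p ∧ p ≤ n + 10 * (K * W) ∧
      n + 8 * (K ^ 3 * W) ≤ q ∧ q ≤ n + 18 * (K ^ 3 * W) ∧ S q = true ∧
      (∀ k, k < n ∨ q ≤ k → T k = S k) ∧ (∀ k, T k = true → S k = true) ∧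
      (∀ k, k ∉ Icc n p ∪ E → T k = S k) ∧ E.card ≤ 8 * K ^ 3 ∧ (∀ k ∈ E, n ≤ k ∧ k ≤ q) ∧
      |walk T q| ≤ 2 * (K * W) ∧ ∑ k ∈ Ioc n q, |walk T k| ≤ 40 * (K ^ 4 * W ^ 2) ∧
      0 ≤ σ * ∑ k ∈ Ioc n q, walk T k ∧
      ((q : ℤ) - n) * (K * W) ≤ 4 * ∑ k ∈ Ioc n q, |walk T k| := by
  have k1 : 18 * W ≤ K * W := Nat.mul_le_mul_right _ hK
  have k2 : 40 * (K * W) ≤ K ^ 3 * W := by
    have : 40 * K ≤ K ^ 3 := by nlinarith [Nat.mul_le_mul hK hK]
    rw [← mul_assoc]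
    exact Nat.mul_le_mul_right _ this
  have hd : (walk S n - σ * (K * W : ℕ)).natAbs ≤ 9 * (K * W) := by
    rw [abs_le] at h0
    rcases hσ with rfl | rfl <;> omega
  obtain ⟨U, p, a1, a2, a3, a4, a5, a6⟩ := reach (W := W) hn hSn (σ * (K * W : ℕ))
    (gap _ (by omega) (by omega))
  have e0 : 8 * K ^ 3 * W = 8 * (K ^ 3 * W) := mul_assoc _ _ _
  obtain ⟨T, q, E, b1, b2, b3, b4, b5, b6, b7, b8, b9, b10⟩ := hold (S := U) (p := p) (W := W)
    (r := 8 * K ^ 3) (by omega) (by rw [a4 p (Or.inr le_rfl), a3]) hW (σ * (K * W : ℕ)) a6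
    (fun a h1 h2 => by
      obtain ⟨q, c1, c2, c3⟩ := gap a (by omega) (by omega)
      exact ⟨q, c1, c2, by rw [a4 q (by omega), c3]⟩) _ le_rfl
  have hpq : p ≤ q := by omega
  have f1 : ∀ m, n < m → m ≤ p → |walk T m| ≤ 18 * (K * W) := fun m h1 h2 => by
    have c1 := lip' T hn h1.le
    rw [walk_congr (S := S) (n := n) fun j hj => by rw [b4 j (by omega), a4 j (by omega)]] at c1
    rw [abs_le] at c1 h0 ⊢
    omega
  have f2 : ∀ m, p < m → m ≤ q → (K * W : ℤ) - 4 * W ≤ σ * walk T m ∧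
      σ * walk T m ≤ K * W + 4 * W ∧ |walk T m| = σ * walk T m := fun m h1 h2 => by
    have c1 := abs_le.1 (b10 m h1.le h2)
    rcases hσ with rfl | rfl
    · refine ⟨by omega, by omega, ?_⟩
      rw [one_mul, abs_of_nonneg (by omega)]
    · refine ⟨by omega, by omega, ?_⟩
      rw [neg_one_mul, abs_of_nonpos (by omega)]
  have s1 := sum_le_mul a1 f1
  have s2 : ∑ k ∈ Ioc p q, |walk T k| ≤ (q - p) * (2 * (K * W)) :=
    sum_le_mul hpq fun k h1 h2 => by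
      obtain ⟨-, c2, c3⟩ := f2 k h1 h2
      omega
  have s3 : (q - p) * (K * W - 4 * W) ≤ ∑ k ∈ Ioc p q, σ * walk T k :=
    mul_le_sum hpq fun k h1 h2 => (f2 k h1 h2).1
  have s4 : ∑ k ∈ Ioc p q, |walk T k| = ∑ k ∈ Ioc p q, σ * walk T k :=
    sum_congr rfl fun k hk => (f2 k (mem_Ioc.1 hk).1 (mem_Ioc.1 hk).2).2.2
  have s5 : (p - n) * (-(18 * (K * W))) ≤ ∑ k ∈ Ioc n p, σ * walk T k :=
    mul_le_sum a1 fun k h1 h2 => by
      have c1 := abs_le.1 (f1 k h1 h2)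
      rcases hσ with rfl | rfl <;> omega
  have s6 : 0 ≤ ∑ k ∈ Ioc n p, |walk T k| := sum_nonneg fun _ _ => abs_nonneg _
  have z0 : (0 : ℤ) ≤ K * W := by positivity
  have z1 : (p : ℤ) - n ≤ 10 * (K * W) := by omega
  have z2 : (q : ℤ) - p ≤ 16 * (K ^ 3 * W) := by
    have : q ≤ p + 16 * (K ^ 3 * W) := by omega
    have : (q : ℤ) ≤ p + 16 * (K ^ 3 * W) := by exact_mod_cast this
    linarith
  have z3 : 8 * (K ^ 3 * W : ℤ) ≤ q - p := by
    have : p + 8 * (K ^ 3 * W) ≤ q := by omega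
    have : (p : ℤ) + 8 * (K ^ 3 * W) ≤ q := by exact_mod_cast this
    linarith
  have z4 : 40 * (K * W : ℤ) ≤ K ^ 3 * W := by exact_mod_cast k2
  have z5 : 18 * (W : ℤ) ≤ K * W := by exact_mod_cast k1
  have z6 : (K : ℤ) ^ 4 * W ^ 2 = K ^ 3 * W * (K * W) := by ring
  have z7 : (0 : ℤ) ≤ W := by positivity
  refine ⟨T, p, q, E, a1, by omega, by omega, by omega, by rw [← a4 q (by omega), b3],
    fun k hk => ?_, fun k hk => a5 k (b5 k hk), fun k hk => ?_, b7, fun k hk => ?_, ?_, ?_, ?_, ?_⟩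
  · rw [b4 k (by omega), a4 k (by omega)]
  · rw [mem_union, not_or, mem_Icc] at hk
    rw [b6 k hk.2, a4 k (by omega)]
  · have := b8 k hk
    omega
  · rw [abs_le] at b9 ⊢
    rcases hσ with rfl | rfl <;> omega
  · rw [← sum_Ioc_consecutive _ a1 hpq, z6]
    generalize (K : ℤ) ^ 3 * W = X at *
    generalize (K : ℤ) * W = Y at *
    linarith only [mul_le_mul_of_nonneg_right z1 z0, mul_le_mul_of_nonneg_right z2 z0,
      mul_le_mul_of_nonneg_right z4 z0, s1, s2, mul_nonneg z0 z0]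
  · rw [mul_sum, ← sum_Ioc_consecutive _ a1 hpq]
    generalize (K : ℤ) ^ 3 * W = X at *
    generalize (K : ℤ) * W = Y at *
    have c1 : 8 * X * (Y - 4 * W) ≤ (q - p) * (Y - 4 * W) :=
      mul_le_mul_of_nonneg_right z3 (by linarith)
    have c2 : 40 * Y * (Y - 4 * W) ≤ X * (Y - 4 * W) :=
      mul_le_mul_of_nonneg_right z4 (by linarith)
    have c3 : 0 ≤ Y * Y := mul_nonneg z0 z0
    linarith only [mul_le_mul_of_nonneg_right z1 z0, mul_le_mul_of_nonneg_right z5 z0, c1, c2, c3,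
      s3, s5]
  · rw [← sum_Ioc_consecutive _ a1 hpq, s4]
    generalize (K : ℤ) ^ 3 * W = X at *
    generalize (K : ℤ) * W = Y at *
    have c1 : ((q : ℤ) - n) * Y ≤ 2 * (q - p) * Y :=
      mul_le_mul_of_nonneg_right (by linarith) z0
    have c2 : ((q : ℤ) - p) * Y ≤ (q - p) * (2 * (Y - 4 * W)) :=
      mul_le_mul_of_nonneg_left (by linarith) (by linarith)
    linarith

end Pool.Agent.P.MP_e2f23e_nt.SD
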